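import Pool.Agent.K3h16.FG.Stm

/-!
# Brick ONEBAD: at most one bad index
-/

set_option autoImplicit false

namespace Pool.Agent.K3h85.FG

open Pool.Agent.K3h16.FG Pool.Agent.R920.WC

variable {ι : Type} [DecidableEq ι] {a c : ι → ℕ} {C : Finset ι}

/-- no closed subset avoids an element of a minimal closed set -/
lemma not_closed_sdiff (hC : Minimal' a c C) {l : ι} (hl : l ∈ C) :
    ∀ U ⊆ C \ {l}, ¬ Closed a c U := by
  intro U hU hcl
  have h1 := hC.2 U (hU.trans Finset.sdiff_subset) hcl
  rw [h1] at hU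
  exact (Finset.mem_sdiff.1 (hU hl)).2 (Finset.mem_singleton_self l)

lemma dg_two {l p : ι} (hl : l ∈ C) (hlp : l ≠ p) {u : ℕ} {W m : ι → ℕ} {i : ι} (hi : i ∈ C)
    {z : ℕ} (hu : u ≤ m l) (h1 : m l - u = if l = i then z else 0)
    (h2 : ∀ k ∈ C, k ≠ l → m k = if k = i then z else 0) : dg W C m = u * W l + z * W i := by
  have h3 : dg W C m = dg W C (fun k => (if k = i then z else 0) + if k = l then u else 0) := by
    refine dg_congr W C fun k hk => ?_
    by_cases hkl : k = l
    · subst hkl
      rw [if_pos (rfl : k = k), ← h1]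
      omega
    · rw [h2 k hk hkl, if_neg hkl, add_zero]
  rw [h3, dg_add_single W C _ hl, dg_single W C hi, add_comm]

theorem core_lt (hPOT : S_POT) (hRED : S_RED) (hMIN : S_MIN) (hAXIS : S_AXIS) (hDUAL : S_DUAL)
    (ha : ∀ i ∈ C, 1 < a i) (hcop : ∀ i ∈ C, ∀ k ∈ C, i ≠ k → Nat.Coprime (a i) (a k))
    (hc : MinExp a c C) (hC : Minimal' a c C) (hc2 : ∀ i ∈ C, 2 ≤ c i) (hcard : 3 ≤ C.card)
    {e : ℕ} (he : ∑ i ∈ C, (c i - 1) * (a i - 1) + 1 ≤ e) {l p : ι} (hl : l ∈ C) (hp : p ∈ C)
    (hlp : l ≠ p) (hbl : ∀ n : ι → ℕ, dg a C n = e → n l < c l)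
    (hbp : ∀ n : ι → ℕ, dg a C n = e → n p < c p) (hlt : c l * a l < c p * a p) : False := by
  have ha0 : ∀ i ∈ C, 0 < a i := fun i hi => by
    have := ha i hi
    omega
  obtain ⟨hM1, hM2, -⟩ := (hMIN a C ha0).2 c hc
  set Θ : ℕ := ∑ i ∈ C, (c i - 1) * a i with hΘ
  -- (1)
  obtain ⟨t, ht⟩ := hDUAL a c C ha hcop hc hC e l l hl hl hbl
  obtain ⟨t1, ht1⟩ := hDUAL a c C ha hcop hc hC e l p hl hp hbl
  obtain ⟨t2, ht2⟩ := hDUAL a c C ha hcop hc hC e p l hp hl hbp
  rw [← hΘ] at ht ht1 ht2
  -- (2)
  have hsum : Θ = ∑ i ∈ C, (c i - 1) * (a i - 1) + ∑ i ∈ C, (c i - 1) := by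
    rw [hΘ, ← Finset.sum_add_distrib]
    refine Finset.sum_congr rfl fun i hi => ?_
    obtain ⟨s, hs⟩ : ∃ s, a i = s + 1 := ⟨a i - 1, by have := ha i hi; omega⟩
    rw [hs, Nat.add_sub_cancel]
    ring
  have hax : ∀ i ∈ C, dg a C t + 3 ≤ a i + c i := by
    intro i hi
    have h1 := hAXIS a c C ha hcop hc i hi
    have h2 := Finset.add_sum_erase C (fun x => c x - 1) hi
    have h3 := hc2 i hi
    omega
  -- (3)
  obtain ⟨i, hi, hti⟩ : ∃ i ∈ C, 1 ≤ t i := by
    by_contra hcon
    push Not at hcon
    have h1 : dg a C t = 0 := Finset.sum_eq_zero fun k hk => by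
      have := hcon k hk
      have h2 : t k = 0 := by omega
      rw [h2, zero_mul]
    omega
  have htk : ∀ k ∈ C, k ≠ i → t k = 0 := by
    intro k hk hki
    by_contra hne
    have h1 := dg_erase a C t hi
    have h2 := le_dg a (C.erase i) t (Finset.mem_erase.2 ⟨hki, hk⟩)
    have h3 := hax i hi
    have h4 := hM2 i hi k hk hki
    have h5 : a i ≤ t i * a i := Nat.le_mul_of_pos_left _ hti
    have h6 : a k ≤ t k * a k := Nat.le_mul_of_pos_left _ (Nat.pos_of_ne_zero hne)
    omega
  obtain ⟨z, hz⟩ : ∃ z, z = t i := ⟨_, rfl⟩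
  rw [← hz] at hti
  have hxz : dg a C t = z * a i := by
    rw [← dg_single a C hi z]
    refine dg_congr a C fun k hk => ?_
    by_cases hki : k = i
    · rw [if_pos hki, hki, hz]
    · rw [if_neg hki, htk k hk hki]
  have h2z : 2 * z < c i := by
    have h1 := hax i hi
    rw [hxz] at h1
    have h2 := ha i hi
    obtain ⟨y, rfl⟩ : ∃ y, z = y + 1 := ⟨z - 1, by omega⟩
    have h3 : y * 2 ≤ y * a i := Nat.mul_le_mul_left _ h2
    rw [add_mul, one_mul] at h1
    omega
  -- (4)
  have h12 : dg a C (fun k => t1 k + t2 k) = (2 * z) * a i := by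
    rw [dg_add, mul_assoc, ← hxz]
    omega
  obtain ⟨h12i, h12k⟩ := hM1 i hi (2 * z) _ h2z h12
  obtain ⟨z', hz'⟩ : ∃ z', z' = t1 i := ⟨_, rfl⟩
  have hx1 : dg a C t1 = z' * a i := by
    rw [← dg_single a C hi z']
    refine dg_congr a C fun k hk => ?_
    by_cases hki : k = i
    · rw [if_pos hki, hki, hz']
    · rw [if_neg hki]
      have := h12k k hk hki
      omega
  have hΨ : z' * a i + c p * a p = z * a i + c l * a l := by
    rw [← hx1, ← hxz]
    omega
  have hz'z : z' < z := by
    by_contra hcon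
    push Not at hcon
    have := Nat.mul_le_mul_right (a i) hcon
    omega
  -- (5)
  have hthird : ∀ x ∈ C, ∀ y ∈ C, x ≠ y → c y < a x := by
    intro x hx y hy hxy
    have h1 := hAXIS a c C ha hcop hc x hx
    obtain ⟨w, hw, hwx, hwy⟩ : ∃ w ∈ C, w ≠ x ∧ w ≠ y := by
      by_contra hcon
      push Not at hcon
      have h2 : C ⊆ {x, y} := fun w hw => by
        rw [Finset.mem_insert, Finset.mem_singleton]
        by_cases hwx : w = x
        · exact Or.inl hwx
        · exact Or.inr (hcon w hw hwx)
      have h3 := Finset.card_le_card h2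
      have h4 := Finset.card_le_two (a := x) (b := y)
      omega
    have hy' : y ∈ C.erase x := Finset.mem_erase.2 ⟨hxy.symm, hy⟩
    have hw' : w ∈ (C.erase x).erase y := Finset.mem_erase.2 ⟨hwy, Finset.mem_erase.2 ⟨hwx, hw⟩⟩
    have h2 := Finset.add_sum_erase (C.erase x) (fun x => c x - 1) hy'
    have h3 := Finset.single_le_sum (f := fun x => c x - 1) (fun _ _ => Nat.zero_le _) hw'
    have h4 := hc2 w hw
    have h5 := hc2 y hy
    omega
  have hil : i ≠ l := by
    rintro rfl
    have h1 : a i ∣ c p * a p := by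
      have h2 : a i ∣ z' * a i + c p * a p := by
        rw [hΨ]
        exact dvd_add (dvd_mul_left _ _) (dvd_mul_left _ _)
      exact (Nat.dvd_add_right (dvd_mul_left _ _)).1 h2
    have h3 : a i ∣ c p := (hcop i hi p hp hlp).dvd_of_dvd_mul_right h1
    have h4 := Nat.le_of_dvd (by have := hc2 p hp; omega) h3
    have h5 := hthird i hi p hp hlp
    omega
  have hip : i ≠ p := by
    rintro rfl
    have h1 : a i ∣ c l * a l := by
      have h2 : a i ∣ z * a i + c l * a l := by
        rw [← hΨ]
        exact dvd_add (dvd_mul_left _ _) (dvd_mul_left _ _)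
      exact (Nat.dvd_add_right (dvd_mul_left _ _)).1 h2
    have h3 : a i ∣ c l := (hcop i hi l hl hlp.symm).dvd_of_dvd_mul_right h1
    have h4 := Nat.le_of_dvd (by have := hc2 l hl; omega) h3
    have h5 := hthird i hi l hl hlp.symm
    omega
  -- (6)
  obtain ⟨ζ, hζ⟩ := hDUAL a c C ha hcop hc hC e l i hl hi hbl
  rw [← hΘ] at hζ
  have hζ' : dg a C ζ + c i * a i = z * a i + c l * a l := by
    rw [← hxz]
    omega
  let κ0 : ι → ℕ := fun k => ζ k + if k = i then c i else 0
  let αl : ι → ℕ := fun k => ζ k + if k = i then c i - z else 0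
  let αp : ι → ℕ := fun k => ζ k + if k = i then c i - z' else 0
  have hκ0 : dg a C κ0 = z * a i + c l * a l := by
    rw [dg_add_single a C ζ hi, hζ']
  have hmul : ∀ (W : ι → ℕ) (y : ℕ), y ≤ c i → (c i - y) * W i + y * W i = c i * W i := by
    intro W y hy
    rw [← add_mul, Nat.sub_add_cancel hy]
  have hzc : z ≤ c i := by omega
  have hz'c : z' ≤ c i := by omega
  have hαl : Rel a c C l αl := by
    refine ⟨?_, i, hi, hil, ?_⟩
    · change dg a C αl = _
      have h1 := dg_add_single a C ζ hi (c i - z)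
      have h2 := hmul a z hzc
      change dg a C αl = _ at h1
      omega
    · change ζ i + (if i = i then c i - z else 0) ≠ 0
      rw [if_pos rfl]
      omega
  have hαp : Rel a c C p αp := by
    refine ⟨?_, i, hi, hip, ?_⟩
    · change dg a C αp = _
      have h1 := dg_add_single a C ζ hi (c i - z')
      have h2 := hmul a z' hz'c
      change dg a C αp = _ at h1
      omega
    · change ζ i + (if i = i then c i - z' else 0) ≠ 0
      rw [if_pos rfl]
      omega
  -- (7)
  obtain ⟨W, hW⟩ := hPOT a c C {l} (Finset.singleton_subset_iff.2 hl) (not_closed_sdiff hC hl)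
  obtain ⟨V, hV⟩ := hPOT a c C {p} (Finset.singleton_subset_iff.2 hp) (not_closed_sdiff hC hp)
  have hWp := hW p (Finset.mem_sdiff.2 ⟨hp, by
    rw [Finset.mem_singleton]
    exact hlp.symm⟩) αp hαp
  have hVl := hV l (Finset.mem_sdiff.2 ⟨hl, by
    rw [Finset.mem_singleton]
    exact hlp⟩) αl hαl
  -- (8)
  have hrel : ∀ x ∈ C, ∃ m, Rel a c C x m := by
    intro x hx
    obtain ⟨m, hm0, hm⟩ := hc.rel x hx
    refine ⟨m, hm, ?_⟩
    by_contra hcon
    push Not at hcon
    have h1 : dg a C m = 0 := Finset.sum_eq_zero fun k hk => by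
      by_cases hkx : k = x
      · rw [hkx, hm0, zero_mul]
      · rw [hcon k hk hkx, zero_mul]
    rw [hm] at h1
    have h2 : 0 < c x * a x := Nat.mul_pos (by have := hc2 x hx; omega) (ha0 x hx)
    omega
  choose! M hM using hrel
  have hZ : ∀ x ∈ C \ {l, p}, x ∈ C ∧ x ∈ C \ {l} ∧ x ∈ C \ {p} := by
    intro x hx
    rw [Finset.mem_sdiff, Finset.mem_insert, Finset.mem_singleton, not_or] at hx
    exact ⟨hx.1, Finset.mem_sdiff.2 ⟨hx.1, by rw [Finset.mem_singleton]; exact hx.2.1⟩,
      Finset.mem_sdiff.2 ⟨hx.1, by rw [Finset.mem_singleton]; exact hx.2.2⟩⟩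
  obtain ⟨κ, hκ, -, hκW, hκV, hκr⟩ := hRED (G := PUnit) (fun _ => 1) a c W V C {l, p} M ha0
    (fun x hx => (hM x (hZ x hx).1).1) (fun _ _ => rfl)
    (fun x hx => hW x (hZ x hx).2.1 _ (hM x (hZ x hx).1))
    (fun x hx => (hV x (hZ x hx).2.2 _ (hM x (hZ x hx).1)).le) κ0
  rw [hκ0] at hκ
  have hκ0W : ∀ W : ι → ℕ, dg W C κ0 = dg W C ζ + c i * W i := fun W => dg_add_single W C ζ hi _
  have hαlW : ∀ W : ι → ℕ, dg W C αl = dg W C ζ + (c i - z) * W i := fun W =>
    dg_add_single W C ζ hi _
  have hαpW : ∀ W : ι → ℕ, dg W C αp = dg W C ζ + (c i - z') * W i := fun W =>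
    dg_add_single W C ζ hi _
  -- (9)
  by_cases hκl : c l ≤ κ l
  · have h1 := dg_sub_single a C κ hl hκl
    have h2 : dg a C (fun k => if k = l then κ k - c l else κ k) = z * a i := by omega
    obtain ⟨h3, h4⟩ := hM1 i hi z _ (by omega) h2
    have h5 : dg V C κ = c l * V l + z * V i := by
      refine dg_two hl hlp hi hκl ?_ ?_
      · rw [if_neg hil.symm]
        have := h4 l hl hil.symm
        simp only [if_true] at this
        exact this
      · intro k hk hkl
        by_cases hki : k = i
        · rw [if_pos hki]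
          have h6 := h3
          simp only [if_neg hil] at h6
          rw [hki, h6]
        · rw [if_neg hki]
          have := h4 k hk hki
          simp only [if_neg hkl] at this
          exact this
    have h6 := hκ0W V
    have h7 := hαlW V
    have h8 := hmul V z hzc
    omega
  · by_cases hκp : c p ≤ κ p
    · have h1 := dg_sub_single a C κ hp hκp
      have h2 : dg a C (fun k => if k = p then κ k - c p else κ k) = z' * a i := by omega
      obtain ⟨h3, h4⟩ := hM1 i hi z' _ (by omega) h2
      have h5 : dg W C κ = c p * W p + z' * W i := by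
        refine dg_two hp hlp.symm hi hκp ?_ ?_
        · rw [if_neg hip.symm]
          have := h4 p hp hip.symm
          simp only [if_true] at this
          exact this
        · intro k hk hkp
          by_cases hki : k = i
          · rw [if_pos hki]
            have h6 := h3
            simp only [if_neg hip] at h6
            rw [hki, h6]
          · rw [if_neg hki]
            have := h4 k hk hki
            simp only [if_neg hkp] at this
            exact this
      have h6 := hκ0W W
      have h7 := hαpW W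
      have h8 := hmul W z' hz'c
      omega
    · -- the complementary configuration
      have hle : ∀ x ∈ C, κ x ≤ c x - 1 := by
        intro x hx
        by_cases hxl : x = l
        · subst hxl
          omega
        · by_cases hxp : x = p
          · subst hxp
            omega
          · have := hκr x (Finset.mem_sdiff.2 ⟨hx, by
              rw [Finset.mem_insert, Finset.mem_singleton, not_or]
              exact ⟨hxl, hxp⟩⟩)
            omega
      have h1 : dg a C (fun x => (c x - 1 - κ x) + κ x) = Θ :=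
        Finset.sum_congr rfl fun x hx => by
          change (c x - 1 - κ x + κ x) * a x = _
          rw [Nat.sub_add_cancel (hle x hx)]
      rw [dg_add] at h1
      have h2 := dg_add_single a C (fun x => c x - 1 - κ x) hl (c l)
      have h3 := hbl (fun k => (c k - 1 - κ k) + if k = l then c l else 0) (by
        rw [h2]
        rw [hxz] at ht
        omega)
      simp only [if_true] at h3
      omega

theorem t_ONEBAD : S_POT → S_RED → S_MIN → S_AXIS → S_DUAL → S_ONEBAD := by
  intro hPOT hRED hMIN hAXIS hDUAL ι _ a c C ha hcop hc hC hc2 hcard e he l hl p hp hlp hbl hbp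
  rcases lt_trichotomy (c l * a l) (c p * a p) with h | h | h
  · exact core_lt hPOT hRED hMIN hAXIS hDUAL ha hcop hc hC hc2 hcard he hl hp hlp hbl hbp h
  · have hcl : Closed a c {l, p} := by
      refine ⟨⟨l, Finset.mem_insert_self _ _⟩, fun x hx => ?_⟩
      rw [Finset.mem_insert, Finset.mem_singleton] at hx
      rcases hx with rfl | rfl
      · refine ⟨fun k => if k = p then c p else 0, ?_, p, by simp, hlp.symm, ?_⟩
        · simp [Finset.sum_pair hlp, hlp, h]
        · simp only [if_true]
          have := hc2 p hp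
          omega
      · refine ⟨fun k => if k = l then c l else 0, ?_, l, by simp, hlp, ?_⟩
        · simp [Finset.sum_pair hlp, hlp.symm, h]
        · simp only [if_true]
          have := hc2 l hl
          omega
    have h1 : ({l, p} : Finset ι) = C := hC.2 _ (by
      intro x hx
      rw [Finset.mem_insert, Finset.mem_singleton] at hx
      rcases hx with rfl | rfl
      · exact hl
      · exact hp) hcl
    rw [← h1] at hcard
    have := Finset.card_le_two (a := l) (b := p)
    omega
  · exact core_lt hPOT hRED hMIN hAXIS hDUAL ha hcop hc hC hc2 hcard he hp hl hlp.symm hbp hbl h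

end Pool.Agent.K3h85.FG
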