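import Pool.Agent.K3h16.FG.Stm

/-!
# Bricks VAL and RANK: values in a group
-/

set_option autoImplicit false

namespace Pool.Agent.K3h85.FG

open Pool.Agent.K3h16.FG Pool.Agent.R920.WC

theorem t_VAL : S_POT → S_RED → S_VAL := by
  intro hPOT hRED ι _ G _ r a c C ha hc hC e he i₀ hi₀ hbad hlt m y hm
  have ha0 : ∀ i ∈ C, 0 < a i := fun i hi => by
    have := ha i hi
    omega
  -- the relations
  have hrel : ∀ x ∈ C, ∃ m, Rel a c C x m := by
    intro x hx
    obtain ⟨m, hm0, hm⟩ := hc.rel x hx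
    refine ⟨m, hm, ?_⟩
    by_contra hcon
    push Not at hcon
    have h1 : dg a C m = 0 := Finset.sum_eq_zero fun k hk => by
      by_cases hkx : k = x
      · rw [hkx, hm0, zero_mul]
      · rw [hcon k hk hkx, zero_mul]
    rw [hm] at h1
    have h2 : 0 < c x * a x := Nat.mul_pos (hc.pos x hx) (ha0 x hx)
    omega
  choose! M hM using hrel
  have hMd : ∀ x ∈ C, dg a C (M x) = c x * a x := fun x hx => (hM x hx).1
  have hval : ∀ l ∈ C, l ≠ i₀ → ∏ k ∈ C, r k ^ M l k = r l ^ c l := by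
    intro l hl hne
    obtain ⟨n, hn, hnl⟩ := hbad l hl hne
    have h1 := he n hn
    have h2 := dg_sub_single a C n hl hnl
    have h3 := he (fun k => (if k = l then n k - c l else n k) + M l k) (by
      rw [dg_add, hMd l hl, h2, hn])
    have h4 : ∏ k ∈ C, r k ^ n k =
        (∏ k ∈ C, r k ^ (if k = l then n k - c l else n k)) * r l ^ c l := by
      rw [← Pool.Agent.K3h16.FU.prod_add_single C r _ hl]
      refine Finset.prod_congr rfl fun k _ => ?_
      congr 1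
      by_cases hkl : k = l
      · subst hkl
        simp only [if_true]
        omega
      · simp only [if_neg hkl, add_zero]
    simp only [pow_add, Finset.prod_mul_distrib] at h3
    rw [h4] at h1
    exact mul_left_cancel (h3.trans h1.symm)
  obtain ⟨W, hW⟩ := hPOT a c C {i₀} (Finset.singleton_subset_iff.2 hi₀) (by
    intro U hU hcl
    have h1 := hC.2 U (hU.trans Finset.sdiff_subset) hcl
    rw [h1] at hU
    exact (Finset.mem_sdiff.1 (hU hi₀)).2 (Finset.mem_singleton_self i₀))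
  have hZ : ∀ x ∈ C \ {i₀}, x ∈ C ∧ x ≠ i₀ := fun x hx =>
    ⟨(Finset.mem_sdiff.1 hx).1, fun h => (Finset.mem_sdiff.1 hx).2 (Finset.mem_singleton.2 h)⟩
  obtain ⟨m₁, h1, h2, -, -, h3⟩ := hRED r a c W W C {i₀} M ha0
    (fun x hx => hMd x (hZ x hx).1) (fun x hx => hval x (hZ x hx).1 (hZ x hx).2)
    (fun x hx => hW x hx _ (hM x (hZ x hx).1)) (fun x hx => (hW x hx _ (hM x (hZ x hx).1)).le) m
  rw [hm] at h1
  rw [← h2]
  have h4 : dg a (C.erase i₀) m₁ ≤ ∑ i ∈ C.erase i₀, (c i - 1) * a i := by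
    refine Finset.sum_le_sum fun i hi => Nat.mul_le_mul_right _ ?_
    have := h3 i (Finset.mem_sdiff.2 ⟨Finset.mem_of_mem_erase hi, fun h =>
      Finset.ne_of_mem_erase hi (Finset.mem_singleton.1 h)⟩)
    omega
  have h5 : m₁ i₀ * a i₀ + dg a (C.erase i₀) m₁ = e + y * a i₀ := by
    rw [← h1]
    exact dg_erase a C m₁ hi₀
  have h6 : y ≤ m₁ i₀ := by
    by_contra hcon
    push Not at hcon
    have h7 : (m₁ i₀ + 1) * a i₀ ≤ y * a i₀ := Nat.mul_le_mul_right _ hcon
    rw [add_mul, one_mul] at h7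
    omega
  have h7 := dg_sub_single a C m₁ hi₀ h6
  have h8 := he (fun k => if k = i₀ then m₁ k - y else m₁ k) (by omega)
  have h9 : ∏ k ∈ C, r k ^ m₁ k =
      (∏ k ∈ C, r k ^ (if k = i₀ then m₁ k - y else m₁ k)) * r i₀ ^ y := by
    rw [← Pool.Agent.K3h16.FU.prod_add_single C r _ hi₀]
    refine Finset.prod_congr rfl fun k _ => ?_
    congr 1
    by_cases hkl : k = i₀
    · subst hkl
      simp only [if_true]
      omega
    · simp only [if_neg hkl, add_zero]
  rw [h9, h8, one_mul]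

theorem t_RANK : S_RANK := by
  intro ι _ G _ r a C ha i₀ hi₀ i₁ hi₁ hcop e hc
  have ha0 := ha i₀ hi₀
  have ha1 := ha i₁ hi₁
  have hval : ∀ α β : ι → ℕ, dg a C α = dg a C β → ∏ k ∈ C, r k ^ α k = ∏ k ∈ C, r k ^ β k := by
    intro α β hαβ
    set D := dg a C α with hD
    obtain ⟨t₀, ht₀⟩ : ∃ t : ℕ, a i₁ * t ≡ e + (a i₀ - 1) * D [MOD a i₀] := by
      obtain ⟨u, hu⟩ := Nat.exists_mul_mod_eq_of_coprime ((e + (a i₀ - 1) * D) % a i₀) hcop
        ha0.ne'
      refine ⟨u, ?_⟩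
      show a i₁ * u % a i₀ = _ % a i₀
      rw [hu.2, Nat.mod_mod]
    set t := t₀ + e * a i₀ with ht
    have h1 : D + t * a i₁ ≡ e [MOD a i₀] := by
      have h2 : D + t * a i₁ = D + a i₁ * t₀ + a i₀ * (e * a i₁) := by rw [ht]; ring
      rw [h2]
      have h3 : D + a i₁ * t₀ + a i₀ * (e * a i₁) ≡ D + a i₁ * t₀ [MOD a i₀] := by
        show _ % _ = _ % _
        rw [Nat.add_mul_mod_self_left]
      refine h3.trans ?_
      have h4 : D + a i₁ * t₀ ≡ D + (e + (a i₀ - 1) * D) [MOD a i₀] := Nat.ModEq.add_left _ ht₀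
      refine h4.trans ?_
      have h5 : D + (e + (a i₀ - 1) * D) = e + a i₀ * D := by
        obtain ⟨p, hp⟩ : ∃ p, a i₀ = p + 1 := ⟨a i₀ - 1, by omega⟩
        rw [hp, Nat.add_sub_cancel]; ring
      rw [h5]
      show _ % _ = _ % _
      rw [Nat.add_mul_mod_self_left]
    have h2 : e ≤ D + t * a i₁ := by
      have h3 : e * 1 * 1 ≤ e * a i₀ * a i₁ := Nat.mul_le_mul (Nat.mul_le_mul_left _ ha0) ha1
      have h4 : t * a i₁ = t₀ * a i₁ + e * a i₀ * a i₁ := by rw [ht]; ring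
      omega
    obtain ⟨y, hy⟩ := (Nat.modEq_iff_dvd' h2).1 h1.symm
    have h3 : D + t * a i₁ = e + y * a i₀ := by
      have : y * a i₀ = D + t * a i₁ - e := by rw [hy, mul_comm]
      omega
    have key : ∀ m : ι → ℕ, dg a C m = D → (∏ k ∈ C, r k ^ m k) * r i₁ ^ t = r i₀ ^ y := by
      intro m hm
      rw [← Pool.Agent.K3h16.FU.prod_add_single C r m hi₁ t]
      refine hc _ y ?_
      rw [dg_add_single a C m hi₁ t, hm, h3]
    have h4 := key α rfl
    rw [← key β hαβ.symm] at h4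
    exact mul_right_cancel h4
  have hpair : ∀ i ∈ C, ∀ k ∈ C, r i ^ a k = r k ^ a i := by
    intro i hi k hk
    have h1 := hval (fun x => if x = i then a k else 0) (fun x => if x = k then a i else 0) (by
      rw [dg_single a C hi, dg_single a C hk, mul_comm])
    rwa [Pool.Agent.K3h16.FU.prod_single' C r hi, Pool.Agent.K3h16.FU.prod_single' C r hk] at h1
  obtain ⟨T, hT0, hT1⟩ := Pool.Agent.H61.Fu.root hcop.symm (hpair i₀ hi₀ i₁ hi₁)
  refine ⟨T, fun l hl => ?_⟩
  have key : ∀ i ∈ C, r i = T ^ a i → (r l * (T ^ a l)⁻¹) ^ a i = 1 := by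
    intro i hi hTi
    rw [mul_pow, hpair l hl i hi, hTi, inv_pow, ← pow_mul, ← pow_mul, mul_comm (a i),
      mul_inv_cancel]
  have h1 := pow_gcd_eq_one.2 ⟨key i₁ hi₁ hT1, key i₀ hi₀ hT0⟩
  rw [hcop.gcd_eq_one, pow_one] at h1
  exact mul_inv_eq_one.1 h1

end Pool.Agent.K3h85.FG
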